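import Mathlib

open Filter Topology

namespace Pool.Agent.Results.MP_771c73_an.NoDenseSum

variable {𝕜 : Type} [RCLike 𝕜]

/-- Bounded finite sums of reals force the terms to tend to zero. -/
theorem real_terms_tendsto {b : ℕ → ℝ} {C : ℝ} (hC : ∀ F : Finset ℕ, |∑ k ∈ F, b k| ≤ C) :
    Tendsto b atTop (𝓝 0) := by
  have h1 : Summable (fun k => |b k|) := by
    refine summable_of_sum_le (c := 2 * C) (fun k => abs_nonneg _) ?_
    intro F
    have h2 : ∑ k ∈ F, |b k| = |∑ k ∈ F.filter (fun k => 0 ≤ b k), b k|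
        + |∑ k ∈ F.filter (fun k => ¬ 0 ≤ b k), b k| := by
      rw [← Finset.sum_filter_add_sum_filter_not F (fun k => 0 ≤ b k)]
      congr 1
      · rw [abs_of_nonneg (Finset.sum_nonneg (fun k hk => (Finset.mem_filter.1 hk).2))]
        exact Finset.sum_congr rfl (fun k hk => abs_of_nonneg (Finset.mem_filter.1 hk).2)
      · rw [abs_of_nonpos (Finset.sum_nonpos
          (fun k hk => (not_le.1 (Finset.mem_filter.1 hk).2).le)), ← Finset.sum_neg_distrib]
        exact Finset.sum_congr rfl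
          (fun k hk => abs_of_nonpos (not_le.1 (Finset.mem_filter.1 hk).2).le)
    rw [h2]
    have := hC (F.filter (fun k => 0 ≤ b k))
    have := hC (F.filter (fun k => ¬ 0 ≤ b k))
    linarith
  exact tendsto_zero_iff_abs_tendsto_zero _ |>.2 h1.tendsto_atTop_zero

theorem terms_tendsto {a : ℕ → 𝕜} {C : ℝ} (hC : ∀ F : Finset ℕ, ‖∑ k ∈ F, a k‖ ≤ C) :
    Tendsto a atTop (𝓝 0) := by
  have h1 : Tendsto (fun k => RCLike.re (a k)) atTop (𝓝 0) := by
    refine real_terms_tendsto (C := C) (fun F => ?_)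
    rw [← map_sum]
    exact (RCLike.abs_re_le_norm _).trans (hC F)
  have h2 : Tendsto (fun k => RCLike.im (a k)) atTop (𝓝 0) := by
    refine real_terms_tendsto (C := C) (fun F => ?_)
    rw [← map_sum]
    exact (RCLike.abs_im_le_norm _).trans (hC F)
  have h3 : Tendsto (fun k => ((RCLike.re (a k) : ℝ) : 𝕜) + ((RCLike.im (a k) : ℝ) : 𝕜) * RCLike.I)
      atTop (𝓝 (((0 : ℝ) : 𝕜) + ((0 : ℝ) : 𝕜) * RCLike.I)) :=
    ((RCLike.continuous_ofReal.tendsto _).comp h1).add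
      (((RCLike.continuous_ofReal.tendsto _).comp h2).mul_const _)
  simpa [RCLike.re_add_im] using h3

/-- Averaging over subsets. -/
theorem powerset_avg {V : Type} [NormedAddCommGroup V] (a : ℕ → V) (s : Finset ℕ) (k : ℕ)
    (hk : k ∈ s) :
    2 ^ s.card * ‖a k‖ ≤ 2 * ∑ F ∈ s.powerset, ‖∑ j ∈ F, a j‖ := by
  classical
  obtain ⟨s', hs', rfl⟩ : ∃ s', k ∉ s' ∧ s = insert k s' :=
    ⟨s.erase k, Finset.notMem_erase k s, (Finset.insert_erase hk).symm⟩
  rw [Finset.sum_powerset_insert hs', ← Finset.sum_add_distrib, Finset.card_insert_of_notMem hs']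
  have h : ∀ F ∈ s'.powerset, ‖a k‖ ≤ ‖∑ j ∈ F, a j‖ + ‖∑ j ∈ insert k F, a j‖ := by
    intro F hF
    have hkF : k ∉ F := fun h => hs' (Finset.mem_powerset.1 hF h)
    rw [Finset.sum_insert hkF]
    calc ‖a k‖ = ‖(a k + ∑ j ∈ F, a j) - ∑ j ∈ F, a j‖ := by rw [add_sub_cancel_right]
      _ ≤ ‖a k + ∑ j ∈ F, a j‖ + ‖∑ j ∈ F, a j‖ := norm_sub_le _ _
      _ = _ := add_comm _ _
  have h2 := Finset.sum_le_sum h
  rw [Finset.sum_const, Finset.card_powerset, nsmul_eq_mul] at h2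
  push_cast at h2
  rw [pow_succ]
  linarith

abbrev L1 (𝕜 : Type) [RCLike 𝕜] (I : Type) : Type := lp (fun _ : I => 𝕜) 1

theorem l1_norm_eq {I : Type} (x : L1 𝕜 I) : ‖x‖ = ∑' i, ‖x i‖ := by
  rw [lp.norm_eq_tsum_rpow (by simp)]
  simp

theorem l1_summable {I : Type} (x : L1 𝕜 I) : Summable (fun i => ‖x i‖) := by
  simpa using (lp.memℓp x).summable (by simp)

theorem l1_sum_le {I : Type} (x : L1 𝕜 I) (A : Finset I) : ∑ i ∈ A, ‖x i‖ ≤ ‖x‖ := by
  rw [l1_norm_eq]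
  exact (l1_summable x).sum_le_tsum A (fun i _ => norm_nonneg _)

/-- A weakly unconditionally Cauchy series in `l1` has terms tending to zero in norm. -/
theorem l1_wuc {I : Type} (t : ℕ → L1 𝕜 I) {C : ℝ}
    (hC : ∀ F : Finset ℕ, ‖∑ k ∈ F, t k‖ ≤ C) : Tendsto (fun k => ‖t k‖) atTop (𝓝 0) := by
  classical
  have hcoord : ∀ (F : Finset ℕ) (i : I), (∑ k ∈ F, t k : L1 𝕜 I) i = ∑ k ∈ F, t k i := by
    intro F i
    have := lp.coeFn_sum t F
    rw [this]
    simp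
  have hpt : ∀ i, Tendsto (fun k => t k i) atTop (𝓝 0) := by
    intro i
    refine terms_tendsto (C := C) (fun F => ?_)
    rw [← hcoord]
    exact (lp.norm_apply_le_norm (by simp) _ i).trans (hC F)
  have hb : ∀ k i, ‖t k i‖ ≤ C := by
    intro k i
    have := hC {k}
    rw [Finset.sum_singleton] at this
    exact (lp.norm_apply_le_norm (by simp) _ i).trans this
  have hbdd : ∀ i, BddAbove (Set.range (fun k => ‖t k i‖)) := by
    intro i
    exact ⟨C, by rintro _ ⟨k, rfl⟩; exact hb k i⟩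
  have hC0 : 0 ≤ C := (norm_nonneg _).trans (hC ∅)
  have hsum : Summable (fun i => ⨆ k, ‖t k i‖) := by
    refine summable_of_sum_le (c := 2 * C) (fun i => Real.iSup_nonneg (fun k => norm_nonneg _)) ?_
    intro A
    refine le_of_forall_pos_le_add (fun ε hε => ?_)
    -- choose near maximisers
    have hch : ∀ i, ∃ k, (⨆ k, ‖t k i‖) - ε / (A.card + 1) < ‖t k i‖ := by
      intro i
      exact exists_lt_of_lt_ciSup (sub_lt_self _ (by positivity))
    choose κ hκ using hch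
    set s : Finset ℕ := Finset.range ((A.sup κ) + 1) with hs
    have hmem : ∀ i ∈ A, κ i ∈ s := by
      intro i hi
      rw [hs, Finset.mem_range]
      exact Nat.lt_succ_of_le (Finset.le_sup hi)
    have h1 : (2:ℝ) ^ s.card * ∑ i ∈ A, ‖t (κ i) i‖ ≤ 2 ^ s.card * (2 * C) := by
      calc (2:ℝ) ^ s.card * ∑ i ∈ A, ‖t (κ i) i‖
          = ∑ i ∈ A, 2 ^ s.card * ‖t (κ i) i‖ := Finset.mul_sum _ _ _
        _ ≤ ∑ i ∈ A, 2 * ∑ F ∈ s.powerset, ‖∑ j ∈ F, t j i‖ :=
            Finset.sum_le_sum (fun i hi => powerset_avg (fun k => t k i) s (κ i) (hmem i hi))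
        _ = 2 * ∑ F ∈ s.powerset, ∑ i ∈ A, ‖∑ j ∈ F, t j i‖ := by
            rw [← Finset.mul_sum, Finset.sum_comm]
        _ ≤ 2 * ∑ F ∈ s.powerset, C := by
            gcongr with F hF
            calc ∑ i ∈ A, ‖∑ j ∈ F, t j i‖ = ∑ i ∈ A, ‖(∑ j ∈ F, t j : L1 𝕜 I) i‖ := by
                  exact Finset.sum_congr rfl (fun i _ => by rw [hcoord])
              _ ≤ _ := l1_sum_le _ A
              _ ≤ C := hC F
        _ = 2 ^ s.card * (2 * C) := by
            rw [Finset.sum_const, Finset.card_powerset, nsmul_eq_mul]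
            push_cast
            ring
    have h2 : ∑ i ∈ A, ‖t (κ i) i‖ ≤ 2 * C :=
      le_of_mul_le_mul_left h1 (by positivity)
    calc ∑ i ∈ A, ⨆ k, ‖t k i‖ ≤ ∑ i ∈ A, (‖t (κ i) i‖ + ε / (A.card + 1)) :=
          Finset.sum_le_sum (fun i _ => by linarith [hκ i])
      _ = ∑ i ∈ A, ‖t (κ i) i‖ + A.card * (ε / (A.card + 1)) := by
          rw [Finset.sum_add_distrib, Finset.sum_const, nsmul_eq_mul]
      _ ≤ 2 * C + ε := by
          have : (A.card : ℝ) * (ε / (A.card + 1)) ≤ ε := by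
            rw [mul_div_assoc', div_le_iff₀ (by positivity)]
            nlinarith
          linarith
  have hd := tendsto_tsum_of_dominated_convergence (𝓕 := atTop) (f := fun k i => ‖t k i‖)
    (g := fun _ => (0 : ℝ)) hsum (fun i => by simpa using (hpt i).norm)
    (Eventually.of_forall (fun k i => by
      rw [Real.norm_of_nonneg (norm_nonneg _)]
      exact le_ciSup (hbdd i) k))
  simpa [l1_norm_eq] using hd

/-- The summation functional over the finite sets containing `k`. -/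
noncomputable def psi (𝕜 : Type) [RCLike 𝕜] (k : ℕ) : L1 𝕜 (Finset ℕ) →L[𝕜] 𝕜 :=
  LinearMap.mkContinuous
    { toFun := fun x => ∑' F : Finset ℕ, (if k ∈ F then x F else 0)
      map_add' := by
        intro x y
        have hs : ∀ z : L1 𝕜 (Finset ℕ), Summable (fun F => if k ∈ F then z F else 0) := by
          intro z
          refine Summable.of_norm_bounded (l1_summable z) (fun F => ?_)
          split_ifs <;> simp
        rw [← (hs x).tsum_add (hs y)]
        refine tsum_congr (fun F => ?_)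
        split_ifs <;> simp
      map_smul' := by
        intro c x
        rw [RingHom.id_apply, smul_eq_mul, ← tsum_mul_left]
        refine tsum_congr (fun F => ?_)
        split_ifs <;> simp }
    1 (by
      intro x
      have hs : Summable (fun F => ‖if k ∈ F then x F else 0‖) := by
        refine Summable.of_nonneg_of_le (fun _ => norm_nonneg _) (fun F => ?_) (l1_summable x)
        split_ifs <;> simp
      rw [one_mul, l1_norm_eq]
      refine (norm_tsum_le_tsum_norm hs).trans (hs.tsum_le_tsum (fun F => ?_) (l1_summable x))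
      split_ifs <;> simp)

theorem psi_apply (k : ℕ) (x : L1 𝕜 (Finset ℕ)) :
    psi 𝕜 k x = ∑' F : Finset ℕ, (if k ∈ F then x F else 0) := rfl

theorem norm_psi_apply_le (k : ℕ) (x : L1 𝕜 (Finset ℕ)) : ‖psi 𝕜 k x‖ ≤ ‖x‖ := by
  have := (psi 𝕜 k).le_of_opNorm_le (LinearMap.mkContinuous_norm_le _ zero_le_one _) x
  simpa using this

/-- Unit vectors of `l1` indexed by finite sets. -/
noncomputable def e (𝕜 : Type) [RCLike 𝕜] (F : Finset ℕ) : L1 𝕜 (Finset ℕ) :=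
  lp.single 1 F (1 : 𝕜)

theorem norm_e (F : Finset ℕ) : ‖e 𝕜 F‖ = 1 := by
  rw [e, lp.norm_single (by simp)]
  simp

theorem psi_e (k : ℕ) (F : Finset ℕ) : psi 𝕜 k (e 𝕜 F) = if k ∈ F then 1 else 0 := by
  rw [psi_apply, tsum_eq_single F]
  · simp [e]
  · intro F' hF'
    have : (e 𝕜 F) F' = 0 := by
      rw [e, lp.single_apply]
      exact Pi.single_eq_of_ne hF' _
    rw [this, ite_self]

/-- The common kernel of the functionals `psi k`. -/
noncomputable def G (𝕜 : Type) [RCLike 𝕜] : Submodule 𝕜 (L1 𝕜 (Finset ℕ)) :=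
  ⨅ k, LinearMap.ker (psi 𝕜 k).toLinearMap

theorem mem_G (x : L1 𝕜 (Finset ℕ)) : x ∈ G 𝕜 ↔ ∀ k, psi 𝕜 k x = 0 := by
  simp [G, Submodule.mem_iInf]

theorem isClosed_G : IsClosed (G 𝕜 : Set (L1 𝕜 (Finset ℕ))) := by
  have : (G 𝕜 : Set (L1 𝕜 (Finset ℕ))) = ⋂ k, {x | psi 𝕜 k x = 0} := by
    ext x
    simp [mem_G]
  rw [this]
  exact isClosed_iInter (fun k => isClosed_eq (psi 𝕜 k).continuous continuous_const)

/-- `G` admits no complement with bounded coordinate, in the following weak sense. -/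
theorem no_bounded_splitting (Y : Submodule 𝕜 (L1 𝕜 (Finset ℕ))) (C : ℝ)
    (h : ∀ x : L1 𝕜 (Finset ℕ), ∃ g ∈ G 𝕜, ∃ y ∈ Y, x = g + y ∧ ‖g‖ ≤ C * ‖x‖)
    (hGY : ∀ z, z ∈ G 𝕜 → z ∈ Y → z = 0) : False := by
  choose γ hγG y hyY hxy hγ using h
  have key : ∀ F : Finset ℕ, ∑ k ∈ F, y (e 𝕜 {k}) = y (e 𝕜 F) := by
    intro F
    have h1 : ∑ k ∈ F, y (e 𝕜 {k}) - y (e 𝕜 F)
        = (∑ k ∈ F, e 𝕜 {k} - e 𝕜 F) - (∑ k ∈ F, γ (e 𝕜 {k}) - γ (e 𝕜 F)) := by
      have h2 : ∀ x, y x = x - γ x := fun x => by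
        rw [eq_sub_iff_add_eq, add_comm]; exact (hxy x).symm
      simp only [h2, Finset.sum_sub_distrib]
      abel
    have h3 : ∑ k ∈ F, y (e 𝕜 {k}) - y (e 𝕜 F) ∈ G 𝕜 := by
      rw [h1]
      refine (G 𝕜).sub_mem ?_ ?_
      · rw [mem_G]
        intro j
        rw [map_sub, map_sum, psi_e]
        simp [psi_e]
      · exact (G 𝕜).sub_mem ((G 𝕜).sum_mem (fun k _ => hγG _)) (hγG _)
    have h4 : ∑ k ∈ F, y (e 𝕜 {k}) - y (e 𝕜 F) ∈ Y :=
      Y.sub_mem (Y.sum_mem (fun k _ => hyY _)) (hyY _)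
    exact sub_eq_zero.1 (hGY _ h3 h4)
  have hbd : ∀ F : Finset ℕ, ‖∑ k ∈ F, y (e 𝕜 {k})‖ ≤ 1 + C := by
    intro F
    rw [key F]
    have h2 : y (e 𝕜 F) = e 𝕜 F - γ (e 𝕜 F) := by
      rw [eq_sub_iff_add_eq, add_comm]; exact (hxy _).symm
    rw [h2]
    calc ‖e 𝕜 F - γ (e 𝕜 F)‖ ≤ ‖e 𝕜 F‖ + ‖γ (e 𝕜 F)‖ := norm_sub_le _ _
      _ ≤ 1 + C := by
        have := hγ (e 𝕜 F)
        rw [norm_e] at this ⊢
        linarith
  have hlim := l1_wuc (fun k => y (e 𝕜 {k})) hbd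
  have hge : ∀ k, 1 ≤ ‖y (e 𝕜 {k})‖ := by
    intro k
    have h2 : y (e 𝕜 {k}) = e 𝕜 {k} - γ (e 𝕜 {k}) := by
      rw [eq_sub_iff_add_eq, add_comm]; exact (hxy _).symm
    have h3 : psi 𝕜 k (y (e 𝕜 {k})) = 1 := by
      rw [h2, map_sub, psi_e, (mem_G _).1 (hγG _) k]
      simp
    calc (1 : ℝ) = ‖psi 𝕜 k (y (e 𝕜 {k}))‖ := by rw [h3]; simp
      _ ≤ _ := norm_psi_apply_le _ _
  have := ge_of_tendsto' hlim hge
  linarith

instance separable_L1 : TopologicalSpace.SeparableSpace (L1 𝕜 (Finset ℕ)) := by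
  rw [← TopologicalSpace.isSeparable_univ_iff]
  have h1 : TopologicalSpace.IsSeparable
      (Submodule.span 𝕜 (Set.range (e 𝕜)) : Set (L1 𝕜 (Finset ℕ))) :=
    (Set.countable_range _).isSeparable.span
  refine h1.closure.mono ?_
  intro x _
  have h2 := lp.hasSum_single (p := 1) (by simp) x
  refine mem_closure_of_tendsto h2 (Eventually.of_forall (fun s => ?_))
  refine Submodule.sum_mem _ (fun F _ => ?_)
  have : lp.single 1 F (x F) = (x F) • e 𝕜 F := by
    rw [e, ← lp.single_smul]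
    simp
  rw [this]
  exact Submodule.smul_mem _ _ (Submodule.subset_span ⟨F, rfl⟩)

/-- A separable normed space has a norming sequence of functionals in the unit ball. -/
theorem exists_norming_seq (X : Type) [NormedAddCommGroup X] [NormedSpace 𝕜 X]
    [TopologicalSpace.SeparableSpace X] :
    ∃ φ : ℕ → (X →L[𝕜] 𝕜), (∀ n, ‖φ n‖ ≤ 1) ∧
      ∀ (g : X) (M : ℝ), (∀ n, ‖φ n g‖ ≤ M) → ‖g‖ ≤ M := by
  obtain ⟨u, hu⟩ := TopologicalSpace.exists_dense_seq X
  choose φ hφ1 hφ2 using fun n => exists_dual_vector'' 𝕜 (u n)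
  refine ⟨φ, hφ1, fun g M hM => ?_⟩
  refine le_of_forall_pos_le_add (fun ε hε => ?_)
  obtain ⟨n, hn⟩ := hu.exists_dist_lt g (half_pos hε)
  rw [dist_eq_norm] at hn
  have h1 : ‖u n‖ ≤ ‖φ n g‖ + ‖g - u n‖ := by
    calc ‖u n‖ = ‖φ n (u n)‖ := by rw [hφ2 n]; simp
      _ = ‖φ n g - φ n (g - u n)‖ := by rw [← map_sub]; congr 2; abel
      _ ≤ ‖φ n g‖ + ‖φ n (g - u n)‖ := norm_sub_le _ _
      _ ≤ ‖φ n g‖ + ‖g - u n‖ := by
        have := (φ n).le_of_opNorm_le (hφ1 n) (g - u n)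
        rw [one_mul] at this
        linarith
  have h2 : ‖g‖ ≤ ‖u n‖ + ‖g - u n‖ := by
    calc ‖g‖ = ‖u n + (g - u n)‖ := by congr 1; abel
      _ ≤ _ := norm_add_le _ _
  linarith [hM n]

theorem result (𝕜 : Type) [RCLike 𝕜] :
    ∃ (E : Type) (_ : NormedAddCommGroup E) (_ : NormedSpace 𝕜 E) (_ : CompleteSpace E)
      (_ : TopologicalSpace.SeparableSpace E) (G : Submodule 𝕜 E) (φ : ℕ → (G →L[𝕜] 𝕜)),
      IsClosed (G : Set E) ∧ (∃ C : ℝ, ∀ n, ‖φ n‖ ≤ C) ∧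
      ∀ f : ℕ → (E →L[𝕜] 𝕜), (∀ (n : ℕ) (g : G), f n (g : E) = φ n g) →
        (∃ C : ℝ, ∀ n, ‖f n‖ ≤ C) →
        ¬ Dense {x : E | ∃ g ∈ G, ∃ y : E, (∀ n, f n y = 0) ∧ x = g + y} := by
  obtain ⟨φ, hφ1, hφ2⟩ := exists_norming_seq (𝕜 := 𝕜) (G 𝕜)
  refine ⟨L1 𝕜 (Finset ℕ), inferInstance, inferInstance, inferInstance, inferInstance, G 𝕜, φ,
    isClosed_G, ⟨1, hφ1⟩, ?_⟩
  rintro f hf ⟨C, hC⟩ hdense
  have hC0 : 0 ≤ C := (norm_nonneg _).trans (hC 0)
  have hnorm : ∀ g ∈ G 𝕜, ∀ y : L1 𝕜 (Finset ℕ), (∀ n, f n y = 0) → ‖g‖ ≤ C * ‖g + y‖ := by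
    intro g hg y hy
    refine hφ2 ⟨g, hg⟩ (C * ‖g + y‖) (fun n => ?_)
    rw [← hf n ⟨g, hg⟩]
    calc ‖f n g‖ = ‖f n (g + y)‖ := by rw [map_add, hy n, add_zero]
      _ ≤ C * ‖g + y‖ := (f n).le_of_opNorm_le (hC n) _
  let Y : Submodule 𝕜 (L1 𝕜 (Finset ℕ)) := ⨅ n, LinearMap.ker (f n).toLinearMap
  have hY : ∀ y, y ∈ Y ↔ ∀ n, f n y = 0 := by
    intro y
    simp [Y, Submodule.mem_iInf]
  refine no_bounded_splitting Y C ?_ ?_
  · intro x
    obtain ⟨u, hu1, hu2⟩ := mem_closure_iff_seq_limit.1 (hdense x)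
    choose g hg y hy hgy using hu1
    have hcau : CauchySeq g := by
      rw [Metric.cauchySeq_iff]
      intro ε hε
      obtain ⟨N, hN⟩ := Metric.cauchySeq_iff.1 hu2.cauchySeq (ε / (C + 1)) (by positivity)
      refine ⟨N, fun m hm n hn => ?_⟩
      have h1 := hN m hm n hn
      rw [dist_eq_norm] at h1 ⊢
      have h2 := hnorm (g m - g n) ((G 𝕜).sub_mem (hg m) (hg n)) (y m - y n)
        (fun k => by rw [map_sub, hy m k, hy n k, sub_zero])
      have h3 : g m - g n + (y m - y n) = u m - u n := by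
        rw [hgy m, hgy n]; abel
      rw [h3] at h2
      rw [lt_div_iff₀ (by positivity)] at h1
      nlinarith [norm_nonneg (u m - u n)]
    obtain ⟨g₀, hg₀⟩ := cauchySeq_tendsto_of_complete hcau
    have hg₀G : g₀ ∈ G 𝕜 := isClosed_G.mem_of_tendsto hg₀ (Eventually.of_forall hg)
    have hy₀ : Tendsto y atTop (𝓝 (x - g₀)) := by
      have : y = fun n => u n - g n := by
        funext n
        rw [hgy n]; abel
      rw [this]
      exact hu2.sub hg₀
    have hyY : ∀ k, f k (x - g₀) = 0 := by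
      intro k
      have h1 : Tendsto (fun n => f k (y n)) atTop (𝓝 (f k (x - g₀))) :=
        ((f k).continuous.tendsto _).comp hy₀
      have h2 : (fun n => f k (y n)) = fun _ => 0 := funext (fun n => hy n k)
      rw [h2] at h1
      exact (tendsto_nhds_unique h1 tendsto_const_nhds)
    refine ⟨g₀, hg₀G, x - g₀, (hY _).2 hyY, by abel, ?_⟩
    have := hnorm g₀ hg₀G (x - g₀) hyY
    simpa using this
  · intro z hz hzY
    have := hnorm z hz (-z) (fun n => by rw [map_neg, (hY z).1 hzY n, neg_zero])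
    rw [add_neg_cancel, norm_zero, mul_zero] at this
    exact norm_le_zero_iff.1 this

end Pool.Agent.Results.MP_771c73_an.NoDenseSum
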